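import Pool.Agent.Helper41.PS.Goals

/-!
# Project PS (MP_74f661_nt), packet AV2: the average of `WW`
-/

set_option autoImplicit false

open Finset

open scoped Classical

namespace Pool.Agent.Helper48.PS.AV2

open Pool.Agent.Helper41.PS

theorem one_le_ww (K t : ℕ) : 1 ≤ ww K t := by
  unfold ww
  have h1 : ∀ p ∈ t.primeFactors, (1 : ℝ) ≤ 1 + (K : ℝ) / p := fun p _ => by
    have : (0 : ℝ) ≤ (K : ℝ) / p := by positivity
    linarith
  calc (1 : ℝ) = ∏ _p ∈ t.primeFactors, (1 : ℝ) := by rw [Finset.prod_const_one]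
    _ ≤ ∏ p ∈ t.primeFactors, (1 + (K : ℝ) / p) :=
      Finset.prod_le_prod (fun _ _ => zero_le_one) h1

/-- a product of at most `P` numbers `≥ 1` -/
theorem prod_le {ι : Type} (I : Finset ι) (x : ι → ℝ) (P : ℕ) (hx : ∀ i ∈ I, 1 ≤ x i)
    (hP : I.card ≤ P) : ∏ i ∈ I, x i ≤ 1 + ∑ i ∈ I, x i ^ P := by
  rcases I.eq_empty_or_nonempty with rfl | hne
  · simp
  obtain ⟨j, hj, hmax⟩ := Finset.exists_max_image I x hne
  have h1 : ∏ i ∈ I, x i ≤ ∏ _i ∈ I, x j :=
    Finset.prod_le_prod (fun i hi => zero_le_one.trans (hx i hi)) (fun i hi => hmax i hi)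
  rw [Finset.prod_const] at h1
  have h2 : x j ^ I.card ≤ x j ^ P := pow_le_pow_right₀ (hx j hj) hP
  have h3 : x j ^ P ≤ ∑ i ∈ I, x i ^ P :=
    Finset.single_le_sum (f := fun i => x i ^ P)
      (fun i hi => pow_nonneg (zero_le_one.trans (hx i hi)) P) hj
  linarith

/-- `W (f - e)` if `e < f` -/
noncomputable def g (W : ℕ → ℝ) (e f : ℕ) : ℝ := if e < f then W (f - e) else 0

theorem g_nonneg {W : ℕ → ℝ} (hW : ∀ t, 0 ≤ W t) (e f : ℕ) : 0 ≤ g W e f := by
  unfold g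
  split_ifs
  · exact hW _
  · exact le_refl _

theorem g_shift (W : ℕ → ℝ) (e f h : ℕ) : g W (e + h) (f + h) = g W e f := by
  unfold g
  by_cases hef : e < f
  · rw [if_pos hef, if_pos (by omega)]
    congr 1
    omega
  · rw [if_neg hef, if_neg (by omega)]

theorem sum_EE (D : Finset ℕ) (h : ℕ) (G : ℕ → ℝ) (hG : ∀ e, 0 ≤ G e) :
    ∑ e ∈ EE D h, G e ≤ ∑ d ∈ insert 0 D, (G d + G (d + h)) := by
  unfold EE
  have h1 := Finset.sum_union_inter (s₁ := insert 0 D)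
    (s₂ := (insert 0 D).image (fun d => d + h)) (f := G)
  have h2 : 0 ≤ ∑ e ∈ insert 0 D ∩ (insert 0 D).image (fun d => d + h), G e :=
    Finset.sum_nonneg fun e _ => hG e
  have h3 : ∑ e ∈ (insert 0 D).image (fun d => d + h), G e = ∑ d ∈ insert 0 D, G (d + h) :=
    Finset.sum_image (fun a _ b _ hab => by simpa using hab)
  rw [Finset.sum_add_distrib]
  linarith

theorem card_EE (D : Finset ℕ) (h m : ℕ) (hD : D.card = m) : (EE D h).card ≤ 2 * (m + 1) := by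
  unfold EE
  have h1 := Finset.card_union_le (insert 0 D) ((insert 0 D).image (fun d => d + h))
  have h2 : ((insert 0 D).image (fun d => d + h)).card ≤ (insert 0 D).card :=
    Finset.card_image_le
  have h3 := Finset.card_insert_le 0 D
  omega

theorem point (hA1 : ∀ K J t : ℕ, ww K t ^ J ≤ ww ((K + 1) ^ J) t) (m K J : ℕ) (D : Finset ℕ)
    (h : ℕ) (hD : D.card = m) :
    WW K (EE D h) ^ J ≤ 1 + ∑ d ∈ insert 0 D, ∑ d' ∈ insert 0 D,
      (2 * g (ww ((K + 1) ^ (J * (2 * (m + 1)) ^ 2))) d d' +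
        (g (ww ((K + 1) ^ (J * (2 * (m + 1)) ^ 2))) d (d' + h) +
        g (ww ((K + 1) ^ (J * (2 * (m + 1)) ^ 2))) (d + h) d')) := by
  set E := EE D h with hE
  set P := (2 * (m + 1)) ^ 2 with hP
  set W := ww ((K + 1) ^ (J * P)) with hW
  have hW0 : ∀ t, 0 ≤ W t := fun t => zero_le_one.trans (one_le_ww _ t)
  let I : Finset (Σ _ : ℕ, ℕ) := E.sigma (fun e => E.filter (fun f => e < f))
  have hWW : WW K E = ∏ i ∈ I, ww K (i.2 - i.1) := by
    unfold WW
    rw [Finset.prod_sigma']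
  have hIc : I.card ≤ P := by
    have h1 : I.card = ∑ e ∈ E, (E.filter (fun f => e < f)).card := Finset.card_sigma _ _
    have h2 : ∑ e ∈ E, (E.filter (fun f => e < f)).card ≤ ∑ _e ∈ E, E.card :=
      Finset.sum_le_sum fun e _ => Finset.card_filter_le _ _
    rw [Finset.sum_const, smul_eq_mul] at h2
    have h3 := card_EE D h m hD
    rw [h1, hP, pow_two]
    exact h2.trans (Nat.mul_le_mul h3 h3)
  have h1 : WW K E ^ J ≤ 1 + ∑ i ∈ I, W (i.2 - i.1) := by
    rw [hWW, ← Finset.prod_pow]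
    refine (prod_le I (fun i => ww K (i.2 - i.1) ^ J) P
      (fun i _ => one_le_pow₀ (one_le_ww _ _)) hIc).trans ?_
    refine add_le_add (le_refl _) (Finset.sum_le_sum fun i _ => ?_)
    rw [← pow_mul]
    exact hA1 K (J * P) (i.2 - i.1)
  have h2 : ∑ i ∈ I, W (i.2 - i.1) = ∑ e ∈ E, ∑ f ∈ E, g W e f := by
    show ∑ i ∈ E.sigma (fun e => E.filter (fun f => e < f)), W (i.2 - i.1) = _
    rw [← Finset.sum_sigma' E (fun e => E.filter (fun f => e < f)) (fun e f => W (f - e))]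
    refine Finset.sum_congr rfl fun e _ => ?_
    rw [Finset.sum_filter]
    rfl
  have h3 : ∑ e ∈ E, ∑ f ∈ E, g W e f ≤ ∑ d ∈ insert 0 D, ∑ d' ∈ insert 0 D,
      (2 * g W d d' + (g W d (d' + h) + g W (d + h) d')) := by
    have a1 : ∀ e, ∑ f ∈ E, g W e f ≤ ∑ d' ∈ insert 0 D, (g W e d' + g W e (d' + h)) := fun e =>
      sum_EE D h (g W e) (g_nonneg hW0 e)
    have a2 := sum_EE D h (fun e => ∑ f ∈ E, g W e f)
      (fun e => Finset.sum_nonneg fun f _ => g_nonneg hW0 e f)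
    refine a2.trans (Finset.sum_le_sum fun d _ => ?_)
    have a3 := add_le_add (a1 d) (a1 (d + h))
    refine a3.trans (le_of_eq ?_)
    rw [← Finset.sum_add_distrib]
    refine Finset.sum_congr rfl fun d' _ => ?_
    rw [g_shift]
    ring
  rw [h2] at h1
  linarith

/-- sets containing `S` -/
theorem cnt (m L : ℕ) (S : Finset ℕ) :
    (((DD m L).filter (fun D => S ⊆ D)).card : ℝ) * (L : ℝ) ^ S.card ≤ (L : ℝ) ^ m := by
  rcases ((DD m L).filter (fun D => S ⊆ D)).eq_empty_or_nonempty with h0 | ⟨D0, hD0⟩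
  · rw [h0]
    simp
  rw [Finset.mem_filter, DD, Finset.mem_powersetCard] at hD0
  have hs : S.card ≤ m := by
    rw [← hD0.1.2]
    exact Finset.card_le_card hD0.2
  have h1 : ((DD m L).filter (fun D => S ⊆ D)).card ≤ (powersetCard (m - S.card) (Icc 1 L)).card := by
    refine Finset.card_le_card_of_injOn (fun D => D \ S) ?_ ?_
    · intro D hD
      rw [Finset.mem_coe, Finset.mem_filter, DD, Finset.mem_powersetCard] at hD
      rw [Finset.mem_coe, Finset.mem_powersetCard]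
      refine ⟨Finset.sdiff_subset.trans hD.1.1, ?_⟩
      rw [Finset.card_sdiff_of_subset hD.2, hD.1.2]
    · intro D hD D' hD' hDD
      rw [Finset.mem_coe, Finset.mem_filter] at hD hD'
      have e1 := Finset.sdiff_union_of_subset hD.2
      have e2 := Finset.sdiff_union_of_subset hD'.2
      have e3 : D \ S = D' \ S := hDD
      rw [← e1, ← e2, e3]
  rw [Finset.card_powersetCard, Nat.card_Icc, Nat.add_sub_cancel] at h1
  have h2 : L.choose (m - S.card) ≤ L ^ (m - S.card) := Nat.choose_le_pow _ _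
  have h3 : ((DD m L).filter (fun D => S ⊆ D)).card * L ^ S.card ≤ L ^ m := by
    calc ((DD m L).filter (fun D => S ⊆ D)).card * L ^ S.card
        ≤ L ^ (m - S.card) * L ^ S.card := Nat.mul_le_mul_right _ (h1.trans h2)
      _ = L ^ m := by rw [← pow_add]; congr 1; omega
  exact_mod_cast h3

theorem card_DD (m L : ℕ) : ((DD m L).card : ℝ) ≤ (L : ℝ) ^ m := by
  have h1 := cnt m L ∅
  simpa using h1

/-- one element -/
theorem sum1 (m L : ℕ) (hL : 1 ≤ L) (f : ℕ → ℝ) (hf : ∀ d, 0 ≤ f d) (C : ℝ)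
    (hC : ∑ d ∈ Icc 1 L, f d ≤ C * L) :
    ∑ D ∈ DD m L, ∑ d ∈ D, f d ≤ C * (L : ℝ) ^ m := by
  have hLpos : (0 : ℝ) < L := by exact_mod_cast hL
  have h1 : ∑ D ∈ DD m L, ∑ d ∈ D, f d =
      ∑ d ∈ Icc 1 L, ∑ D ∈ (DD m L).filter (fun D => {d} ⊆ D), f d := by
    refine Finset.sum_comm' ?_
    intro D d
    rw [Finset.mem_filter, Finset.singleton_subset_iff]
    constructor
    · rintro ⟨h1, h2⟩
      refine ⟨⟨h1, h2⟩, ?_⟩
      rw [DD, Finset.mem_powersetCard] at h1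
      exact h1.1 h2
    · rintro ⟨⟨h1, h2⟩, -⟩
      exact ⟨h1, h2⟩
  have h2 : (∑ D ∈ DD m L, ∑ d ∈ D, f d) * L ≤ (C * (L : ℝ) ^ m) * L := by
    rw [h1, Finset.sum_mul]
    calc ∑ d ∈ Icc 1 L, (∑ D ∈ (DD m L).filter (fun D => {d} ⊆ D), f d) * L
        ≤ ∑ d ∈ Icc 1 L, (L : ℝ) ^ m * f d := by
          refine Finset.sum_le_sum fun d _ => ?_
          rw [Finset.sum_const, nsmul_eq_mul]
          have h3 := cnt m L {d}
          rw [Finset.card_singleton, pow_one] at h3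
          calc (((DD m L).filter (fun D => {d} ⊆ D)).card : ℝ) * f d * L
              = (((DD m L).filter (fun D => {d} ⊆ D)).card : ℝ) * L * f d := by ring
            _ ≤ (L : ℝ) ^ m * f d := mul_le_mul_of_nonneg_right h3 (hf d)
      _ = (L : ℝ) ^ m * ∑ d ∈ Icc 1 L, f d := by rw [Finset.mul_sum]
      _ ≤ (L : ℝ) ^ m * (C * L) := mul_le_mul_of_nonneg_left hC (by positivity)
      _ = (C * (L : ℝ) ^ m) * L := by ring
  exact le_of_mul_le_mul_right h2 hLpos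

/-- two elements -/
theorem sum2 (m L : ℕ) (hL : 1 ≤ L) (f : ℕ → ℕ → ℝ) (hf : ∀ d d', 0 ≤ f d d')
    (hf0 : ∀ d, f d d = 0) (C : ℝ)
    (hC : ∀ d ∈ Icc 1 L, ∑ d' ∈ Icc 1 L, f d d' ≤ C * L) :
    ∑ D ∈ DD m L, ∑ d ∈ D, ∑ d' ∈ D, f d d' ≤ C * (L : ℝ) ^ m := by
  have hLpos : (0 : ℝ) < L := by exact_mod_cast hL
  have h1 : ∑ D ∈ DD m L, ∑ d ∈ D, ∑ d' ∈ D, f d d' =
      ∑ d ∈ Icc 1 L, ∑ d' ∈ Icc 1 L,
        ∑ D ∈ (DD m L).filter (fun D => {d, d'} ⊆ D), f d d' := by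
    have a1 : ∑ D ∈ DD m L, ∑ d ∈ D, ∑ d' ∈ D, f d d' =
        ∑ d ∈ Icc 1 L, ∑ D ∈ (DD m L).filter (fun D => d ∈ D), ∑ d' ∈ D, f d d' := by
      refine Finset.sum_comm' ?_
      intro D d
      rw [Finset.mem_filter]
      constructor
      · rintro ⟨h1, h2⟩
        refine ⟨⟨h1, h2⟩, ?_⟩
        rw [DD, Finset.mem_powersetCard] at h1
        exact h1.1 h2
      · rintro ⟨⟨h1, h2⟩, -⟩
        exact ⟨h1, h2⟩
    rw [a1]
    refine Finset.sum_congr rfl fun d _ => ?_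
    refine Finset.sum_comm' ?_
    intro D d'
    rw [Finset.mem_filter, Finset.mem_filter, Finset.insert_subset_iff,
      Finset.singleton_subset_iff]
    constructor
    · rintro ⟨⟨h1, h2⟩, h3⟩
      refine ⟨⟨h1, h2, h3⟩, ?_⟩
      rw [DD, Finset.mem_powersetCard] at h1
      exact h1.1 h3
    · rintro ⟨⟨h1, h2, h3⟩, -⟩
      exact ⟨⟨h1, h2⟩, h3⟩
  have h2 : (∑ D ∈ DD m L, ∑ d ∈ D, ∑ d' ∈ D, f d d') * (L : ℝ) ^ 2 ≤
      (C * (L : ℝ) ^ m) * (L : ℝ) ^ 2 := by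
    rw [h1, Finset.sum_mul]
    calc ∑ d ∈ Icc 1 L, (∑ d' ∈ Icc 1 L,
          ∑ D ∈ (DD m L).filter (fun D => {d, d'} ⊆ D), f d d') * (L : ℝ) ^ 2
        ≤ ∑ d ∈ Icc 1 L, (L : ℝ) ^ m * (C * L) := by
          refine Finset.sum_le_sum fun d hd => ?_
          rw [Finset.sum_mul]
          calc ∑ d' ∈ Icc 1 L,
                (∑ D ∈ (DD m L).filter (fun D => {d, d'} ⊆ D), f d d') * (L : ℝ) ^ 2
              ≤ ∑ d' ∈ Icc 1 L, (L : ℝ) ^ m * f d d' := by
                refine Finset.sum_le_sum fun d' _ => ?_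
                rw [Finset.sum_const, nsmul_eq_mul]
                by_cases hdd : d = d'
                · rw [← hdd, hf0]
                  simp
                · have h3 := cnt m L {d, d'}
                  rw [Finset.card_pair hdd] at h3
                  calc (((DD m L).filter (fun D => {d, d'} ⊆ D)).card : ℝ) * f d d' *
                        (L : ℝ) ^ 2
                      = (((DD m L).filter (fun D => {d, d'} ⊆ D)).card : ℝ) *
                        (L : ℝ) ^ 2 * f d d' := by ring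
                    _ ≤ (L : ℝ) ^ m * f d d' := mul_le_mul_of_nonneg_right h3 (hf d d')
            _ = (L : ℝ) ^ m * ∑ d' ∈ Icc 1 L, f d d' := by rw [Finset.mul_sum]
            _ ≤ (L : ℝ) ^ m * (C * L) := mul_le_mul_of_nonneg_left (hC d hd) (by positivity)
      _ = (C * (L : ℝ) ^ m) * (L : ℝ) ^ 2 := by
          rw [Finset.sum_const, Nat.card_Icc, Nat.add_sub_cancel, nsmul_eq_mul]
          ring
  exact le_of_mul_le_mul_right h2 (by positivity)

/-- the sum over `h` -/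
theorem sumh (W : ℕ → ℝ) (hW : ∀ t, 0 ≤ W t) (N : ℕ) (s : Finset ℕ) (a b : ℕ → ℕ)
    (hinj : ∀ h ∈ s, ∀ h' ∈ s, a h < b h → a h' < b h' → b h - a h = b h' - a h' → h = h')
    (hle : ∀ h ∈ s, b h - a h ≤ N) :
    ∑ h ∈ s, g W (a h) (b h) ≤ ∑ t ∈ Icc 1 N, W t := by
  have h1 : ∑ h ∈ s, g W (a h) (b h) = ∑ h ∈ s.filter (fun h => a h < b h), W (b h - a h) := by
    rw [Finset.sum_filter]
    rfl
  have h2 : ∑ h ∈ s.filter (fun h => a h < b h), W (b h - a h) =
      ∑ t ∈ (s.filter (fun h => a h < b h)).image (fun h => b h - a h), W t := by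
    rw [Finset.sum_image]
    intro h hh h' hh' he
    rw [Finset.mem_coe, Finset.mem_filter] at hh hh'
    exact hinj h hh.1 h' hh'.1 hh.2 hh'.2 he
  rw [h1, h2]
  refine Finset.sum_le_sum_of_subset_of_nonneg ?_ (fun t _ _ => hW t)
  intro t ht
  rw [Finset.mem_image] at ht
  obtain ⟨h, hh, rfl⟩ := ht
  rw [Finset.mem_filter] at hh
  rw [Finset.mem_Icc]
  have := hle h hh.1
  omega

theorem t (h : StmtAV1) : StmtAV2 := by
  intro m K J
  obtain ⟨hA1, hA2⟩ := h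
  set W := ww ((K + 1) ^ (J * (2 * (m + 1)) ^ 2)) with hW
  obtain ⟨C, hC1, hC⟩ := hA2 ((K + 1) ^ (J * (2 * (m + 1)) ^ 2))
  have hW0 : ∀ t, 0 ≤ W t := fun t => zero_le_one.trans (one_le_ww _ t)
  refine ⟨1 + 2 * C * ((m : ℝ) + 1) ^ 2 + 4 * C, by nlinarith [sq_nonneg ((m : ℝ) + 1)], ?_⟩
  intro L N hL
  have hLpos : (0 : ℝ) < L := by exact_mod_cast hL
  have hCs : ∀ n : ℕ, ∑ t ∈ Icc 1 n, W t ≤ C * n := hC
  -- pointwise
  have hp : ∑ h ∈ Icc 1 N, ∑ D ∈ (DD m L).filter (fun D => ND D h), WW K (EE D h) ^ J ≤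
      ∑ h ∈ Icc 1 N, ∑ D ∈ DD m L, (1 + ∑ d ∈ insert 0 D, ∑ d' ∈ insert 0 D,
        (2 * g W d d' + (g W d (d' + h) + g W (d + h) d'))) := by
    refine Finset.sum_le_sum fun h _ => ?_
    have hnn : ∀ D : Finset ℕ, 0 ≤ 1 + ∑ d ∈ insert 0 D, ∑ d' ∈ insert 0 D,
        (2 * g W d d' + (g W d (d' + h) + g W (d + h) d')) := fun D => by
      have : 0 ≤ ∑ d ∈ insert 0 D, ∑ d' ∈ insert 0 D,
        (2 * g W d d' + (g W d (d' + h) + g W (d + h) d')) :=
        Finset.sum_nonneg fun d _ => Finset.sum_nonneg fun d' _ => by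
          have a1 := g_nonneg hW0 d d'
          have a2 := g_nonneg hW0 d (d' + h)
          have a3 := g_nonneg hW0 (d + h) d'
          linarith
      linarith
    refine (Finset.sum_le_sum fun D hD => ?_).trans
      (Finset.sum_le_sum_of_subset_of_nonneg (Finset.filter_subset _ _) fun D _ _ => hnn D)
    have hDc : D.card = m := by
      have := (Finset.mem_filter.1 hD).1
      rw [DD, Finset.mem_powersetCard] at this
      exact this.2
    exact point hA1 m K J D h hDc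
  refine hp.trans ?_
  -- split
  have hsplit : ∑ h ∈ Icc 1 N, ∑ D ∈ DD m L, (1 + ∑ d ∈ insert 0 D, ∑ d' ∈ insert 0 D,
        (2 * g W d d' + (g W d (d' + h) + g W (d + h) d'))) =
      (N : ℝ) * (DD m L).card +
        2 * (N : ℝ) * (∑ D ∈ DD m L, ∑ d ∈ insert 0 D, ∑ d' ∈ insert 0 D, g W d d') +
        ∑ D ∈ DD m L, ∑ d ∈ insert 0 D, ∑ d' ∈ insert 0 D,
          (∑ h ∈ Icc 1 N, g W d (d' + h) + ∑ h ∈ Icc 1 N, g W (d + h) d') := by
    have b1 : ∀ h, ∑ D ∈ DD m L, (1 + ∑ d ∈ insert 0 D, ∑ d' ∈ insert 0 D,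
        (2 * g W d d' + (g W d (d' + h) + g W (d + h) d'))) =
        ((DD m L).card : ℝ) +
          2 * (∑ D ∈ DD m L, ∑ d ∈ insert 0 D, ∑ d' ∈ insert 0 D, g W d d') +
          ∑ D ∈ DD m L, ∑ d ∈ insert 0 D, ∑ d' ∈ insert 0 D,
            (g W d (d' + h) + g W (d + h) d') := by
      intro h
      simp only [Finset.sum_add_distrib, Finset.mul_sum, Finset.sum_const, nsmul_eq_mul, mul_one]
      ring
    rw [Finset.sum_congr rfl fun h _ => b1 h]
    rw [Finset.sum_add_distrib, Finset.sum_const, Nat.card_Icc, Nat.add_sub_cancel, nsmul_eq_mul]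
    have b2 : ∑ h ∈ Icc 1 N, ∑ D ∈ DD m L, ∑ d ∈ insert 0 D, ∑ d' ∈ insert 0 D,
            (g W d (d' + h) + g W (d + h) d') =
        ∑ D ∈ DD m L, ∑ d ∈ insert 0 D, ∑ d' ∈ insert 0 D,
          (∑ h ∈ Icc 1 N, g W d (d' + h) + ∑ h ∈ Icc 1 N, g W (d + h) d') := by
      rw [Finset.sum_comm]
      refine Finset.sum_congr rfl fun D _ => ?_
      rw [Finset.sum_comm]
      refine Finset.sum_congr rfl fun d _ => ?_
      rw [Finset.sum_comm]
      refine Finset.sum_congr rfl fun d' _ => ?_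
      rw [Finset.sum_add_distrib]
    rw [b2]
    ring
  rw [hsplit]
  -- first term
  have t1 : (N : ℝ) * (DD m L).card ≤ ((N : ℝ) + L) * (L : ℝ) ^ m := by
    have := card_DD m L
    have hN : (0 : ℝ) ≤ N := Nat.cast_nonneg _
    calc (N : ℝ) * (DD m L).card ≤ (N : ℝ) * (L : ℝ) ^ m := mul_le_mul_of_nonneg_left this hN
      _ ≤ ((N : ℝ) + L) * (L : ℝ) ^ m :=
        mul_le_mul_of_nonneg_right (by linarith) (by positivity)
  -- second term
  have t2 : ∑ D ∈ DD m L, ∑ d ∈ insert 0 D, ∑ d' ∈ insert 0 D, g W d d' ≤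
      2 * C * (L : ℝ) ^ m := by
    have c1 : ∀ D ∈ DD m L, ∑ d ∈ insert 0 D, ∑ d' ∈ insert 0 D, g W d d' =
        ∑ d' ∈ D, W d' + ∑ d ∈ D, ∑ d' ∈ D, g W d d' := by
      intro D hD
      rw [DD, Finset.mem_powersetCard] at hD
      have h0 : (0 : ℕ) ∉ D := fun h0 => by
        have := Finset.mem_Icc.1 (hD.1 h0)
        omega
      rw [Finset.sum_insert h0, Finset.sum_insert h0]
      have c2 : g W 0 0 = 0 := by simp [g]
      have c3 : ∑ d' ∈ D, g W 0 d' = ∑ d' ∈ D, W d' := by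
        refine Finset.sum_congr rfl fun d' hd' => ?_
        have : 0 < d' := (Finset.mem_Icc.1 (hD.1 hd')).1
        rw [g, if_pos this, Nat.sub_zero]
      have c4 : ∑ d ∈ D, ∑ d' ∈ insert 0 D, g W d d' = ∑ d ∈ D, ∑ d' ∈ D, g W d d' := by
        refine Finset.sum_congr rfl fun d _ => ?_
        rw [Finset.sum_insert h0]
        have : g W d 0 = 0 := by simp [g]
        rw [this, zero_add]
      rw [c2, c3, c4, zero_add]
    rw [Finset.sum_congr rfl c1, Finset.sum_add_distrib]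
    have c5 := sum1 m L hL W hW0 C (hCs L)
    have c6 := sum2 m L hL (g W) (g_nonneg hW0) (fun d => by simp [g]) C (fun d _ => by
      refine (sumh W hW0 L (Icc 1 L) (fun _ => d) (fun d' => d') ?_ ?_).trans (hCs L)
      · intro h hh h' hh' h1 h2 h3
        omega
      · intro h hh
        have := (Finset.mem_Icc.1 hh).2
        omega)
    linarith
  -- third term
  have t3 : ∑ D ∈ DD m L, ∑ d ∈ insert 0 D, ∑ d' ∈ insert 0 D,
          (∑ h ∈ Icc 1 N, g W d (d' + h) + ∑ h ∈ Icc 1 N, g W (d + h) d') ≤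
      2 * C * ((m : ℝ) + 1) ^ 2 * (((N : ℝ) + L) * (L : ℝ) ^ m) := by
    have c1 : ∀ D ∈ DD m L, ∑ d ∈ insert 0 D, ∑ d' ∈ insert 0 D,
          (∑ h ∈ Icc 1 N, g W d (d' + h) + ∑ h ∈ Icc 1 N, g W (d + h) d') ≤
        2 * C * ((m : ℝ) + 1) ^ 2 * ((N : ℝ) + L) := by
      intro D hD
      rw [DD, Finset.mem_powersetCard] at hD
      have hle : ∀ d ∈ insert 0 D, d ≤ L := by
        intro d hd
        rcases Finset.mem_insert.1 hd with rfl | hd
        · exact Nat.zero_le _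
        · exact (Finset.mem_Icc.1 (hD.1 hd)).2
      have c2 : ∀ d ∈ insert 0 D, ∀ d' ∈ insert 0 D,
          ∑ h ∈ Icc 1 N, g W d (d' + h) + ∑ h ∈ Icc 1 N, g W (d + h) d' ≤
            2 * C * ((N : ℝ) + L) := by
        intro d hd d' hd'
        have e1 : ∑ h ∈ Icc 1 N, g W d (d' + h) ≤ C * ((N + L : ℕ) : ℝ) := by
          refine (sumh W hW0 (N + L) (Icc 1 N) (fun _ => d) (fun h => d' + h) ?_ ?_).trans
            (hCs (N + L))
          · intro h hh h' hh' h1 h2 h3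
            omega
          · intro h hh
            have h4 := (Finset.mem_Icc.1 hh).2
            have h5 := hle d' hd'
            omega
        have e2 : ∑ h ∈ Icc 1 N, g W (d + h) d' ≤ C * ((N + L : ℕ) : ℝ) := by
          refine (sumh W hW0 (N + L) (Icc 1 N) (fun h => d + h) (fun _ => d') ?_ ?_).trans
            (hCs (N + L))
          · intro h hh h' hh' h1 h2 h3
            omega
          · intro h hh
            have h4 := (Finset.mem_Icc.1 hh).2
            have h5 := hle d' hd'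
            omega
        push_cast at e1 e2
        linarith
      have hcard : ((insert 0 D).card : ℝ) ≤ (m : ℝ) + 1 := by
        have := Finset.card_insert_le 0 D
        rw [hD.2] at this
        exact_mod_cast this
      have hnn : 0 ≤ 2 * C * ((N : ℝ) + L) := by positivity
      calc ∑ d ∈ insert 0 D, ∑ d' ∈ insert 0 D,
          (∑ h ∈ Icc 1 N, g W d (d' + h) + ∑ h ∈ Icc 1 N, g W (d + h) d')
          ≤ ∑ _d ∈ insert 0 D, ∑ _d' ∈ insert 0 D, 2 * C * ((N : ℝ) + L) :=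
            Finset.sum_le_sum fun d hd => Finset.sum_le_sum fun d' hd' => c2 d hd d' hd'
        _ = ((insert 0 D).card : ℝ) * (((insert 0 D).card : ℝ) * (2 * C * ((N : ℝ) + L))) := by
            rw [Finset.sum_const, Finset.sum_const, nsmul_eq_mul, nsmul_eq_mul]
        _ ≤ ((m : ℝ) + 1) * (((m : ℝ) + 1) * (2 * C * ((N : ℝ) + L))) := by
            gcongr
        _ = 2 * C * ((m : ℝ) + 1) ^ 2 * ((N : ℝ) + L) := by ring
    calc ∑ D ∈ DD m L, ∑ d ∈ insert 0 D, ∑ d' ∈ insert 0 D,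
          (∑ h ∈ Icc 1 N, g W d (d' + h) + ∑ h ∈ Icc 1 N, g W (d + h) d')
        ≤ ∑ _D ∈ DD m L, 2 * C * ((m : ℝ) + 1) ^ 2 * ((N : ℝ) + L) := Finset.sum_le_sum c1
      _ = ((DD m L).card : ℝ) * (2 * C * ((m : ℝ) + 1) ^ 2 * ((N : ℝ) + L)) := by
          rw [Finset.sum_const, nsmul_eq_mul]
      _ ≤ (L : ℝ) ^ m * (2 * C * ((m : ℝ) + 1) ^ 2 * ((N : ℝ) + L)) :=
          mul_le_mul_of_nonneg_right (card_DD m L) (by positivity)
      _ = 2 * C * ((m : ℝ) + 1) ^ 2 * (((N : ℝ) + L) * (L : ℝ) ^ m) := by ring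
  have t2' : 2 * (N : ℝ) * (∑ D ∈ DD m L, ∑ d ∈ insert 0 D, ∑ d' ∈ insert 0 D, g W d d') ≤
      4 * C * (((N : ℝ) + L) * (L : ℝ) ^ m) := by
    have hN : (0 : ℝ) ≤ N := Nat.cast_nonneg _
    calc 2 * (N : ℝ) * (∑ D ∈ DD m L, ∑ d ∈ insert 0 D, ∑ d' ∈ insert 0 D, g W d d')
        ≤ 2 * (N : ℝ) * (2 * C * (L : ℝ) ^ m) := mul_le_mul_of_nonneg_left t2 (by positivity)
      _ = 4 * C * ((N : ℝ) * (L : ℝ) ^ m) := by ring
      _ ≤ 4 * C * (((N : ℝ) + L) * (L : ℝ) ^ m) := by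
          have : (N : ℝ) * (L : ℝ) ^ m ≤ ((N : ℝ) + L) * (L : ℝ) ^ m :=
            mul_le_mul_of_nonneg_right (by linarith) (by positivity)
          exact mul_le_mul_of_nonneg_left this (by positivity)
  calc (N : ℝ) * (DD m L).card +
        2 * (N : ℝ) * (∑ D ∈ DD m L, ∑ d ∈ insert 0 D, ∑ d' ∈ insert 0 D, g W d d') +
        ∑ D ∈ DD m L, ∑ d ∈ insert 0 D, ∑ d' ∈ insert 0 D,
          (∑ h ∈ Icc 1 N, g W d (d' + h) + ∑ h ∈ Icc 1 N, g W (d + h) d')
      ≤ ((N : ℝ) + L) * (L : ℝ) ^ m + 4 * C * (((N : ℝ) + L) * (L : ℝ) ^ m) +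
        2 * C * ((m : ℝ) + 1) ^ 2 * (((N : ℝ) + L) * (L : ℝ) ^ m) :=
        add_le_add (add_le_add t1 t2') t3
    _ = (1 + 2 * C * ((m : ℝ) + 1) ^ 2 + 4 * C) * ((N : ℝ) + L) * (L : ℝ) ^ m := by ring

end Pool.Agent.Helper48.PS.AV2
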